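import Pool.Agent.Lib.Ramsey.NesetrilRodl

-- merged part: Pool.Agent.Work.MP_683e5e_co.Gadgets
section
set_option autoImplicit false

namespace Pool.Agent.Work.MP_683e5e_co

open Classical SimpleGraph Pool.Agent.Lib.Ramsey

/-- `F` contains a (not necessarily induced) copy of `G`. -/
def Sub {V W : Type} (G : SimpleGraph V) (F : SimpleGraph W) : Prop :=
  ∃ f : V → W, Function.Injective f ∧ ∀ u v, G.Adj u v → F.Adj (f u) (f v)

/-- `F` contains a clique on `n` vertices. -/
def HasK {W : Type} (F : SimpleGraph W) (n : ℕ) : Prop :=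
  ∃ f : Fin n → W, ∀ i j, i ≠ j → F.Adj (f i) (f j)

/-- `F` is `(G,H)`-Ramsey. -/
def Arr {V U W : Type} (F : SimpleGraph W) (G : SimpleGraph V) (H : SimpleGraph U) : Prop :=
  ∀ R : SimpleGraph W, R ≤ F → Sub G R ∨ Sub H (F \ R)

/-- `F` is `(K_t,K_t)`-Ramsey. -/
def ArrK {W : Type} (F : SimpleGraph W) (t : ℕ) : Prop :=
  ∀ R : SimpleGraph W, R ≤ F → HasK R t ∨ HasK (F \ R) t

theorem clique_inj {W : Type} {F : SimpleGraph W} {n : ℕ} {f : Fin n → W}
    (h : ∀ i j, i ≠ j → F.Adj (f i) (f j)) : Function.Injective f := by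
  intro i j e
  by_contra hij
  exact (h i j hij).ne e

theorem sub_top_iff {W : Type} (F : SimpleGraph W) (n : ℕ) :
    Sub (⊤ : SimpleGraph (Fin n)) F ↔ HasK F n :=
  ⟨fun ⟨f, _, h⟩ => ⟨f, fun i j hij => h i j (by simpa using hij)⟩,
    fun ⟨f, h⟩ => ⟨f, clique_inj h, fun i j hij => h i j (by simpa using hij)⟩⟩

theorem HasK.map {W W' : Type} {F : SimpleGraph W} {F' : SimpleGraph W'} {n : ℕ} (h : HasK F n)
    (g : W → W') (hg : ∀ a b, F.Adj a b → F'.Adj (g a) (g b)) : HasK F' n := by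
  obtain ⟨f, hf⟩ := h
  exact ⟨g ∘ f, fun i j hij => hg _ _ (hf i j hij)⟩

theorem HasK.mono {W : Type} {F F' : SimpleGraph W} {n : ℕ} (h : HasK F n) (hF : F ≤ F') :
    HasK F' n := h.map id (fun _ _ e => hF e)

theorem HasK.sub {W W' : Type} {F : SimpleGraph W} {F' : SimpleGraph W'} {n : ℕ} (h : HasK F n)
    (hs : Sub F F') : HasK F' n := by
  obtain ⟨g, -, hg⟩ := hs
  exact h.map g hg

theorem HasK.le {W : Type} {F : SimpleGraph W} {n m : ℕ} (h : HasK F n) (hm : m ≤ n) :
    HasK F m := by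
  obtain ⟨f, hf⟩ := h
  exact ⟨fun i => f (Fin.castLE hm i), fun i j hij => hf _ _ (fun e => hij (Fin.castLE_injective _ e))⟩

theorem HasK.card_le {W : Type} [Fintype W] {F : SimpleGraph W} {n : ℕ} (h : HasK F n) :
    n ≤ Fintype.card W := by
  obtain ⟨f, hf⟩ := h
  simpa using Fintype.card_le_of_injective f (clique_inj hf)

theorem not_hasK_bot {W : Type} {n : ℕ} (hn : 2 ≤ n) : ¬ HasK (⊥ : SimpleGraph W) n := by
  rintro ⟨f, hf⟩
  exact hf ⟨0, by omega⟩ ⟨1, by omega⟩ (by simp)

theorem clique_cons {W : Type} {F : SimpleGraph W} {n : ℕ} {g : Fin n → W} {v : W}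
    (hg : ∀ i j, i ≠ j → F.Adj (g i) (g j)) (hv : ∀ i, F.Adj v (g i)) :
    ∀ i j, i ≠ j → F.Adj ((Fin.cons v g : Fin (n + 1) → W) i)
      ((Fin.cons v g : Fin (n + 1) → W) j) := by
  intro i j hij
  induction i using Fin.cases with
  | zero =>
    induction j using Fin.cases with
    | zero => exact absurd rfl hij
    | succ j => simpa using hv j
  | succ i =>
    induction j using Fin.cases with
    | zero => simpa using (hv i).symm
    | succ j => simpa using hg i j (fun e => hij (e ▸ rfl))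

theorem hasK_of_irr {L W V : Type} {C : L → SimpleGraph W} {B : L → SimpleGraph V}
    (h : Irr C B) {σ : L} {n : ℕ} (hK : HasK (C σ) n) : HasK (B σ) n := by
  obtain ⟨f, hf⟩ := hK
  obtain ⟨g, hg⟩ := h (Set.range f) (by
    rintro _ ⟨i, rfl⟩ _ ⟨j, rfl⟩ hij
    exact ⟨σ, hf i j (fun e => hij (e ▸ rfl))⟩)
  exact ⟨g ∘ f, fun i j hij => hg _ ⟨i, rfl⟩ _ ⟨j, rfl⟩ σ (hf i j hij)⟩

theorem hasK_sum {V W : Type} {G : SimpleGraph V} {H : SimpleGraph W} {n : ℕ}
    (h : HasK (G ⊕g H) n) : HasK G n ∨ HasK H n := by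
  obtain ⟨f, hf⟩ := h
  by_cases hl : ∀ i, ∃ a, f i = Sum.inl a
  · choose g hg using hl
    exact Or.inl ⟨g, fun i j hij => by simpa [hg] using hf i j hij⟩
  · push Not at hl
    obtain ⟨i0, hi0⟩ := hl
    have hr : ∀ j, ∃ b, f j = Sum.inr b := by
      intro j
      rcases e : f j with a | b
      · by_cases hj : j = i0
        · exact absurd e (hj ▸ hi0 a)
        · have := hf j i0 hj
          rcases e' : f i0 with a' | b'
          · exact absurd e' (hi0 a')
          · rw [e, e'] at this; simp at this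
      · exact ⟨b, rfl⟩
    choose g hg using hr
    exact Or.inr ⟨g, fun i j hij => by simpa [hg] using hf i j hij⟩

theorem disj_sum {L V W : Type} {A : L → SimpleGraph V} {B : L → SimpleGraph W} (hA : Disj A)
    (hB : Disj B) : Disj (fun σ => A σ ⊕g B σ) := by
  rintro σ τ (u | u) (v | v) h h'
  · exact hA σ τ u v (by simpa using h) (by simpa using h')
  · simp at h
  · simp at h
  · exact hB σ τ u v (by simpa using h) (by simpa using h')

theorem disj_unit {V : Type} (A : Unit → SimpleGraph V) : Disj A := fun _ _ _ _ _ _ => rfl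

/-- The typed graph with red graph `R` and blue graph `B`. -/
def two {V : Type} (R B : SimpleGraph V) : Bool → SimpleGraph V
  | true => R
  | false => B

theorem disj_two {V : Type} {R B : SimpleGraph V} (h : ∀ u v, R.Adj u v → ¬ B.Adj u v) :
    Disj (two R B) := by
  rintro (_ | _) (_ | _) u v h1 h2
  · rfl
  · exact absurd h1 (h u v h2)
  · exact absurd h2 (h u v h1)
  · rfl

theorem adj_symm_eq {W : Type} (R : SimpleGraph W) (a b : W) : R.Adj a b = R.Adj b a :=
  propext (R.adj_comm a b)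

/-- Folkman's theorem. -/
theorem folkman (t : ℕ) (ht : 1 ≤ t) :
    ∃ (W : Type) (_ : Finite W) (F : SimpleGraph W), ¬ HasK F (t + 1) ∧ ArrK F t := by
  have : Nonempty (Fin t) := ⟨⟨0, ht⟩⟩
  obtain ⟨W, hW, C, -, hI, hC⟩ :=
    nesetril_rodl Prop (fun _ : Unit => (⊤ : SimpleGraph (Fin t))) (disj_unit _)
  refine ⟨W, hW, C (), fun h => ?_, fun R hR => ?_⟩
  · have := (hasK_of_irr hI h).card_le
    simp at this
  · obtain ⟨φ, -, h1, c, h2⟩ := hC R.Adj (adj_symm_eq R)
    by_cases hc : c ()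
    · exact Or.inl ⟨φ, fun i j hij => (h2 () i j (by simpa using hij)).mpr hc⟩
    · refine Or.inr ⟨φ, fun i j hij => ?_⟩
      rw [sdiff_adj]
      exact ⟨(h1 () i j).mpr (by simpa using hij),
        fun e => hc ((h2 () i j (by simpa using hij)).mp e)⟩

theorem not_hasK_cycle : ¬ HasK (cycleGraph 5) 3 := by
  rintro ⟨f, hf⟩
  have key : ∀ a b c : Fin 5, (cycleGraph 5).Adj a b → (cycleGraph 5).Adj a c →
      ¬ (cycleGraph 5).Adj b c := by decide
  exact key _ _ _ (hf 0 1 (by decide)) (hf 0 2 (by decide)) (hf 1 2 (by decide))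

/-- Vertex Folkman graphs. -/
theorem vertex_folkman (r : ℕ) (hr : 1 ≤ r) :
    ∃ (U : Type) (_ : Finite U) (Y : SimpleGraph U), ¬ HasK Y (r + 2) ∧
      ∀ c : U → Prop, ∃ g : Fin (r + 1) → U, (∀ i j, i ≠ j → Y.Adj (g i) (g j)) ∧
        ((∀ i, c (g i)) ∨ (∀ i, ¬ c (g i))) := by
  obtain ⟨W, hW, C, -, hI, hC⟩ :=
    nesetril_rodl Prop (fun _ : Unit => (⊤ : SimpleGraph (Fin (r + 1))) ⊕g cycleGraph 5)
      (disj_unit _)
  refine ⟨W, hW, C (), fun h => ?_, fun c => ?_⟩
  · rcases hasK_sum (hasK_of_irr hI h) with h | h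
    · have := h.card_le
      simp at this
    · exact not_hasK_cycle (h.le (by omega))
  · obtain ⟨φ, -, h1, k, h2⟩ := hC (fun a b => c a ↔ c b) (fun a b => propext Iff.comm)
    have hk : k () := by
      by_contra hk
      have e : ∀ i j : Fin 5, (cycleGraph 5).Adj i j →
          ¬ (c (φ (Sum.inr i)) ↔ c (φ (Sum.inr j))) := by
        intro i j hij h
        exact hk ((h2 () (Sum.inr i) (Sum.inr j) (by simpa using hij)).mp h)
      have e0 := e 0 1 (by decide)
      have e1 := e 1 2 (by decide)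
      have e2 := e 2 3 (by decide)
      have e3 := e 3 4 (by decide)
      have e4 := e 4 0 (by decide)
      tauto
    refine ⟨fun i => φ (Sum.inl i), fun i j hij => (h1 () _ _).mpr (by simpa using hij), ?_⟩
    have hall : ∀ i, c (φ (Sum.inl i)) ↔ c (φ (Sum.inl 0)) := by
      intro i
      by_cases hi : i = 0
      · rw [hi]
      · exact (h2 () (Sum.inl i) (Sum.inl 0) (by simpa using hi)).mpr hk
    by_cases h0 : c (φ (Sum.inl 0))
    · exact Or.inl fun i => (hall i).mpr h0
    · exact Or.inr fun i h => h0 ((hall i).mp h)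

/-- A graph on at most `t` vertices is not Ramsey for `K_t` when `t ≥ 3`. -/
theorem not_arrK_small {W : Type} [Fintype W] (F : SimpleGraph W) {t : ℕ} (ht : 3 ≤ t)
    (hW : Fintype.card W ≤ t) : ¬ ArrK F t := by
  intro h
  by_cases hne : Nonempty W
  · obtain ⟨v⟩ := hne
    let R : SimpleGraph W :=
      { Adj := fun a b => F.Adj a b ∧ (a = v ∨ b = v)
        symm := ⟨fun _ _ e => ⟨e.1.symm, e.2.symm⟩⟩
        loopless := ⟨fun _ e => e.1.ne rfl⟩ }
    rcases h R (fun _ _ e => e.1) with hK | hK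
    · obtain ⟨f, hf⟩ := hK.le ht
      have e1 := hf 0 1 (by decide)
      have e2 := hf 0 2 (by decide)
      have e3 := hf 1 2 (by decide)
      have n1 := e1.ne
      have n2 := e2.ne
      have n3 := e3.ne
      rcases e1.2 with a | a <;> rcases e2.2 with b | b <;> rcases e3.2 with c | c <;> simp_all
    · obtain ⟨f, hf⟩ := hK
      have hb : Function.Bijective f :=
        (Fintype.bijective_iff_injective_and_card f).mpr ⟨clique_inj hf,
          le_antisymm (Fintype.card_le_of_injective f (clique_inj hf)) (by simpa using hW)⟩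
      obtain ⟨i, hi⟩ := hb.2 v
      have : Nontrivial (Fin t) := Fin.nontrivial_iff_two_le.mpr (by omega)
      obtain ⟨j, hj⟩ := exists_ne i
      have := hf i j hj.symm
      rw [sdiff_adj] at this
      exact this.2 ⟨this.1, Or.inl hi⟩
  · rcases h ⊥ bot_le with ⟨f, -⟩ | ⟨f, -⟩
    · exact hne ⟨f ⟨0, by omega⟩⟩
    · exact hne ⟨f ⟨0, by omega⟩⟩

/-- If `G` has no `K_t` and `H` is not Ramsey for `K_t`, some graph is `(G,H)`-Ramsey but not
`(K_t,K_t)`-Ramsey. -/
theorem separate_small {V U : Type} [Finite V] [Finite U] [Nonempty V] (G : SimpleGraph V)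
    (H : SimpleGraph U) {t : ℕ} (ht : 2 ≤ t) (hG : ¬ HasK G t) (hH : ¬ ArrK H t) :
    ∃ (W : Type) (_ : Finite W) (F : SimpleGraph W), Arr F G H ∧ ¬ ArrK F t := by
  unfold ArrK at hH
  push Not at hH
  obtain ⟨R0, hR0, h1, h2⟩ := hH
  let B : Bool → SimpleGraph (V ⊕ (V ⊕ U)) :=
    fun σ => two G ⊥ σ ⊕g (two ⊥ G σ ⊕g two R0 (H \ R0) σ)
  have hB : Disj B := disj_sum (disj_two (by simp))
    (disj_sum (disj_two (by simp)) (disj_two (fun u v h h' => h'.2 h)))
  obtain ⟨W, hW, C, hD, hI, hC⟩ := nesetril_rodl Prop B hB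
  refine ⟨W, hW, C true ⊔ C false, fun R hR => ?_, fun h => ?_⟩
  · obtain ⟨φ, hφ, ha, c, hc⟩ := hC R.Adj (adj_symm_eq R)
    by_cases c1 : c true
    · refine Or.inl ⟨fun v => φ (Sum.inl v), hφ.comp Sum.inl_injective, fun u v h => ?_⟩
      exact (hc true (Sum.inl u) (Sum.inl v) (by simpa [B, two] using h)).mpr c1
    by_cases c2 : c false
    · refine Or.inl ⟨fun v => φ (Sum.inr (Sum.inl v)),
        hφ.comp (Sum.inr_injective.comp Sum.inl_injective), fun u v h => ?_⟩
      exact (hc false (Sum.inr (Sum.inl u)) (Sum.inr (Sum.inl v))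
        (by simpa [B, two] using h)).mpr c2
    refine Or.inr ⟨fun v => φ (Sum.inr (Sum.inr v)),
      hφ.comp (Sum.inr_injective.comp Sum.inr_injective), fun u v h => ?_⟩
    rw [sdiff_adj, sup_adj]
    by_cases hr : R0.Adj u v
    · have hb : (B true).Adj (Sum.inr (Sum.inr u)) (Sum.inr (Sum.inr v)) := by
        simpa [B, two] using hr
      exact ⟨Or.inl ((ha true _ _).mpr hb), fun e => c1 ((hc true _ _ hb).mp e)⟩
    · have hb : (B false).Adj (Sum.inr (Sum.inr u)) (Sum.inr (Sum.inr v)) := by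
        simpa [B, two] using ⟨h, hr⟩
      exact ⟨Or.inr ((ha false _ _).mpr hb), fun e => c2 ((hc false _ _ hb).mp e)⟩
  · rcases h (C true) le_sup_left with hK | hK
    · rcases hasK_sum (hasK_of_irr hI hK) with hK | hK
      · exact hG hK
      · rcases hasK_sum hK with hK | hK
        · exact not_hasK_bot ht hK
        · exact h1 hK
    · have hK' : HasK (C false) t := hK.mono (fun a b e => e.1.resolve_left e.2)
      rcases hasK_sum (hasK_of_irr hI hK') with hK | hK
      · exact not_hasK_bot ht hK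
      · rcases hasK_sum hK with hK | hK
        · exact hG hK
        · exact h2 hK

end Pool.Agent.Work.MP_683e5e_co
end

-- merged part: Pool.Agent.Work.MP_683e5e_co.Pendant
section
set_option autoImplicit false

namespace Pool.Agent.Work.MP_683e5e_co

open Classical SimpleGraph Pool.Agent.Lib.Ramsey

/-- Every clique on `t` vertices is a whole connected component. -/
def NoPend {W : Type} (F : SimpleGraph W) (t : ℕ) : Prop :=
  ∀ f : Fin t → W, (∀ i j, i ≠ j → F.Adj (f i) (f j)) → ∀ i w, F.Adj (f i) w → w ∈ Set.range f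

section Construction

variable {W : Type} (Ca Cb : SimpleGraph W) (r : ℕ)

/-- Vertex sets without a clique on `r + 1` vertices. -/
def ZS : Type :=
  {Z : Set W // ¬ ∃ g : Fin (r + 1) → W, (∀ j, g j ∈ Z) ∧ ∀ i j, i ≠ j → Ca.Adj (g i) (g j)}

/-- The red graph of the construction. -/
def Fa : SimpleGraph (W ⊕ (ZS Ca r × Fin (r + 2))) where
  Adj
    | Sum.inl a, Sum.inl b => Ca.Adj a b
    | Sum.inl a, Sum.inr q => a ∈ q.1.1
    | Sum.inr q, Sum.inl a => a ∈ q.1.1
    | Sum.inr _, Sum.inr _ => False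
  symm := ⟨by
    rintro (a | a) (b | b) h
    · exact h.symm
    · exact h
    · exact h
    · exact h⟩
  loopless := ⟨by
    rintro (a | a) h
    · exact h.ne rfl
    · exact h⟩

/-- Disjoint cliques. -/
def Kq : SimpleGraph (ZS Ca r × Fin (r + 2)) where
  Adj p q := p.1 = q.1 ∧ p.2 ≠ q.2
  symm := ⟨fun _ _ h => ⟨h.1.symm, h.2.symm⟩⟩
  loopless := ⟨fun _ h => h.2 rfl⟩

/-- The blue graph of the construction. -/
def Fb : SimpleGraph (W ⊕ (ZS Ca r × Fin (r + 2))) := Cb ⊕g Kq Ca r

theorem Fa_free (h : ¬ HasK Ca (r + 2)) : ¬ HasK (Fa Ca r) (r + 2) := by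
  rintro ⟨f, hf⟩
  by_cases hl : ∀ i, ∃ a, f i = Sum.inl a
  · choose g hg using hl
    refine h ⟨g, fun i j hij => ?_⟩
    have := hf i j hij
    rw [hg, hg] at this
    exact this
  · push Not at hl
    obtain ⟨i0, hi0⟩ := hl
    obtain ⟨q, hq⟩ : ∃ q, f i0 = Sum.inr q := by
      rcases e : f i0 with a | q
      · exact absurd e (hi0 a)
      · exact ⟨q, rfl⟩
    have hr : ∀ j : Fin (r + 1), ∃ a, f (i0.succAbove j) = Sum.inl a ∧ a ∈ q.1.1 := by
      intro j
      have := hf i0 (i0.succAbove j) (Fin.succAbove_ne i0 j).symm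
      rw [hq] at this
      rcases e : f (i0.succAbove j) with a | q'
      · rw [e] at this
        exact ⟨a, rfl, this⟩
      · rw [e] at this
        exact absurd this id
    choose g hg using hr
    refine q.1.2 ⟨g, fun j => (hg j).2, fun i j hij => ?_⟩
    have := hf (i0.succAbove i) (i0.succAbove j) (fun e => hij (Fin.succAbove_right_injective e))
    rw [(hg i).1, (hg j).1] at this
    exact this

theorem Fb_noPend (h : ¬ HasK Cb (r + 2)) : NoPend (Fb Ca Cb r) (r + 2) := by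
  intro f hf i w hw
  have hr : ∀ j, ∃ q, f j = Sum.inr q := by
    by_contra hc
    push Not at hc
    obtain ⟨j0, hj0⟩ := hc
    obtain ⟨a0, ha0⟩ : ∃ a, f j0 = Sum.inl a := by
      rcases e : f j0 with a | q
      · exact ⟨a, rfl⟩
      · exact absurd e (hj0 q)
    have hl : ∀ j, ∃ a, f j = Sum.inl a := by
      intro j
      by_cases hj : j = j0
      · exact ⟨a0, hj ▸ ha0⟩
      · have := hf j j0 hj
        rcases e : f j with a | q
        · exact ⟨a, rfl⟩
        · rw [e, ha0] at this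
          simp [Fb] at this
    choose g hg using hl
    exact h ⟨g, fun i j hij => by simpa [hg, Fb] using hf i j hij⟩
  choose g hg using hr
  have hadj : ∀ i j, i ≠ j → (g i).1 = (g j).1 ∧ (g i).2 ≠ (g j).2 := by
    intro i j hij
    have := hf i j hij
    rw [hg, hg] at this
    exact this
  have hinj : Function.Injective (fun j => (g j).2) := by
    intro a b e
    by_contra hab
    exact (hadj a b hab).2 e
  have hsurj := Finite.injective_iff_surjective.mp hinj
  rw [hg] at hw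
  rcases w with a | q
  · simp [Fb] at hw
  · have hw' : (g i).1 = q.1 ∧ (g i).2 ≠ q.2 := hw
    obtain ⟨j, hj⟩ := hsurj q.2
    refine ⟨j, ?_⟩
    rw [hg]
    congr 1
    refine Prod.ext ?_ hj
    by_cases hij : j = i
    · rw [hij]; exact hw'.1
    · exact (hadj j i hij).1.trans hw'.1

theorem core {U : Type} (Y : SimpleGraph U)
    (hY : ∀ c : U → Prop, ∃ g : Fin (r + 1) → U, (∀ i j, i ≠ j → Y.Adj (g i) (g j)) ∧
        ((∀ i, c (g i)) ∨ (∀ i, ¬ c (g i))))
    (R1 R2 : SimpleGraph (W ⊕ (ZS Ca r × Fin (r + 2))))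
    (hcov : ∀ a b, (Fa Ca r).Adj a b ∨ (Fb Ca Cb r).Adj a b → R1.Adj a b ∨ R2.Adj a b)
    (Z : ZS Ca r) (φ : U × Fin r → W) (hφ : ∀ p, φ p ∈ Z.1)
    (h1 : ∀ y i j, i ≠ j → R1.Adj (Sum.inl (φ (y, i))) (Sum.inl (φ (y, j))))
    (h2 : ∀ y y' i j, Y.Adj y y' → R2.Adj (Sum.inl (φ (y, i))) (Sum.inl (φ (y', j)))) :
    HasK R1 (r + 2) ∨ HasK R2 (r + 2) := by
  by_cases hall : ∀ i j : Fin (r + 2), i ≠ j → R2.Adj (Sum.inr (Z, i)) (Sum.inr (Z, j))
  · exact Or.inr ⟨fun i => Sum.inr (Z, i), hall⟩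
  push Not at hall
  obtain ⟨i, j, hij, hn⟩ := hall
  have hr : R1.Adj (Sum.inr (Z, i)) (Sum.inr (Z, j)) :=
    (hcov (Sum.inr (Z, i)) (Sum.inr (Z, j))
      (Or.inr (show (Kq Ca r).Adj (Z, i) (Z, j) from ⟨rfl, hij⟩))).resolve_right hn
  have hc : ∀ k p, R1.Adj (Sum.inr (Z, k)) (Sum.inl (φ p)) ∨
      R2.Adj (Sum.inr (Z, k)) (Sum.inl (φ p)) := fun k p => hcov _ _ (Or.inl (hφ p))
  by_cases hy : ∃ y, ∀ a, R1.Adj (Sum.inr (Z, i)) (Sum.inl (φ (y, a))) ∧
      R1.Adj (Sum.inr (Z, j)) (Sum.inl (φ (y, a)))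
  · obtain ⟨y, hy⟩ := hy
    refine Or.inl ⟨_, clique_cons (v := Sum.inr (Z, i))
      (clique_cons (v := Sum.inr (Z, j)) (g := fun a => Sum.inl (φ (y, a))) (h1 y)
        (fun a => (hy a).2)) ?_⟩
    intro k
    induction k using Fin.cases with
    | zero => simpa using hr
    | succ k => simpa using (hy k).1
  · push Not at hy
    choose a ha using hy
    obtain ⟨g, hg, hm⟩ := hY (fun y => R2.Adj (Sum.inr (Z, i)) (Sum.inl (φ (y, a y))))
    have hcl : ∀ k l : Fin (r + 1), k ≠ l →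
        R2.Adj (Sum.inl (φ (g k, a (g k)))) (Sum.inl (φ (g l, a (g l)))) :=
      fun k l hkl => h2 _ _ _ _ (hg k l hkl)
    rcases hm with hm | hm
    · exact Or.inr ⟨_, clique_cons (v := Sum.inr (Z, i)) hcl hm⟩
    · refine Or.inr ⟨_, clique_cons (v := Sum.inr (Z, j)) hcl (fun k => ?_)⟩
      exact (hc j _).resolve_left (ha _ ((hc i _).resolve_right (hm k)))

end Construction

/-- Blown-up red cliques. -/
def Sa (U : Type) (r : ℕ) : SimpleGraph (U × Fin r) where
  Adj p q := p.1 = q.1 ∧ p.2 ≠ q.2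
  symm := ⟨fun _ _ h => ⟨h.1.symm, h.2.symm⟩⟩
  loopless := ⟨fun _ h => h.2 rfl⟩

theorem Sa_free (U : Type) (r : ℕ) : ¬ HasK (Sa U r) (r + 1) := by
  intro h
  have := (h.map (F' := (⊤ : SimpleGraph (Fin r))) Prod.snd (fun a b e => e.2)).card_le
  simp at this

/-- A graph that is Ramsey for `K_t` but has a colouring without red `K_t` in which every blue
`K_t` is a blue component. -/
theorem exists_pendant (t : ℕ) (ht : 2 ≤ t) :
    ∃ (W : Type) (_ : Finite W) (F R : SimpleGraph W), ArrK F t ∧ R ≤ F ∧ ¬ HasK R t ∧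
      NoPend (F \ R) t := by
  rcases Nat.lt_or_ge 2 t with h3 | h2
  swap
  · have : t = 2 := by omega
    subst this
    refine ⟨Fin 2, inferInstance, ⊤, ⊥, fun R _ => ?_, bot_le, not_hasK_bot le_rfl, ?_⟩
    · by_cases h : R.Adj 0 1
      · refine Or.inl ⟨id, fun i j hij => ?_⟩
        fin_cases i <;> fin_cases j <;> simp_all [R.adj_comm]
      · refine Or.inr ⟨id, fun i j hij => ?_⟩
        fin_cases i <;> fin_cases j <;> simp_all [R.adj_comm]
    · intro f hf i w _
      exact Finite.injective_iff_surjective.mp (clique_inj hf) w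
  obtain ⟨r, rfl⟩ : ∃ r, t = r + 2 := ⟨t - 2, by omega⟩
  have hr : 1 ≤ r := by omega
  obtain ⟨U, hU, Y, hY1, hY2⟩ := vertex_folkman r hr
  have hM := not_arrK_small (⊤ : SimpleGraph (Fin (r + 2))) (t := r + 2) h3 (by simp)
  unfold ArrK at hM
  push Not at hM
  obtain ⟨M, -, hM1, hM2⟩ := hM
  let B : Bool → SimpleGraph ((U × Fin r) ⊕ Fin (r + 2)) :=
    fun σ => two (Sa U r) (Y.comap Prod.fst) σ ⊕g two M (⊤ \ M) σ
  have hB : Disj B := disj_sum (disj_two (fun u v h h' => (show Y.Adj u.1 v.1 from h').ne h.1))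
    (disj_two (fun u v h h' => h'.2 h))
  obtain ⟨W, hW, C, hD, hI, hC⟩ := nesetril_rodl Prop B hB
  have hCa : ¬ HasK (C true) (r + 2) := by
    intro hK
    rcases hasK_sum (hasK_of_irr hI hK) with hK | hK
    · exact Sa_free U r (hK.le (by omega))
    · exact hM1 hK
  have hCb : ¬ HasK (C false) (r + 2) := by
    intro hK
    rcases hasK_sum (hasK_of_irr hI hK) with hK | hK
    · exact hY1 (hK.map Prod.fst (fun _ _ e => e))
    · exact hM2 hK
  have : Finite (ZS (C true) r) := by unfold ZS; infer_instance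
  refine ⟨W ⊕ (ZS (C true) r × Fin (r + 2)), inferInstance,
    Fa (C true) r ⊔ Fb (C true) (C false) r, Fa (C true) r, ?_, le_sup_left, Fa_free _ r hCa, ?_⟩
  · intro R hR
    obtain ⟨φ, -, ha, c, hc⟩ := hC (fun a b => R.Adj (Sum.inl a) (Sum.inl b))
      (fun a b => adj_symm_eq R _ _)
    have hF : ∀ σ u v, (B σ).Adj u v →
        (Fa (C true) r ⊔ Fb (C true) (C false) r).Adj (Sum.inl (φ u)) (Sum.inl (φ v)) := by
      rintro (_ | _) u v h
      · exact Or.inr ((ha false u v).mpr h)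
      · exact Or.inl ((ha true u v).mpr h)
    have hred : ∀ σ u v, c σ → (B σ).Adj u v → R.Adj (Sum.inl (φ u)) (Sum.inl (φ v)) :=
      fun σ u v h1 h2 => (hc σ u v h2).mpr h1
    have hblue : ∀ σ u v, ¬ c σ → (B σ).Adj u v →
        ((Fa (C true) r ⊔ Fb (C true) (C false) r) \ R).Adj (Sum.inl (φ u)) (Sum.inl (φ v)) :=
      fun σ u v h1 h2 => ⟨hF σ u v h2, fun e => h1 ((hc σ u v h2).mp e)⟩
    have hmix : ∀ i j : Fin (r + 2), i ≠ j →
        (B true).Adj (Sum.inr i) (Sum.inr j) ∨ (B false).Adj (Sum.inr i) (Sum.inr j) := by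
      intro i j hij
      by_cases h : M.Adj i j
      · exact Or.inl h
      · exact Or.inr ⟨hij, h⟩
    let Z : ZS (C true) r := ⟨Set.range (fun p => φ (Sum.inl p)), by
      rintro ⟨g, hg, hg'⟩
      choose p hp using hg
      refine Sa_free U r ⟨p, fun i j hij => ?_⟩
      have := hg' i j hij
      rw [← hp i, ← hp j] at this
      exact (ha true _ _).mp this⟩
    have hSa : ∀ (y : U) (i j : Fin r), i ≠ j →
        (B true).Adj (Sum.inl (y, i)) (Sum.inl (y, j)) := fun y i j hij => ⟨rfl, hij⟩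
    have hSb : ∀ (y y' : U) (i j : Fin r), Y.Adj y y' →
        (B false).Adj (Sum.inl (y, i)) (Sum.inl (y', j)) := fun y y' i j h => h
    by_cases c1 : c true <;> by_cases c2 : c false
    · exact Or.inl ⟨fun i => Sum.inl (φ (Sum.inr i)), fun i j hij =>
        (hmix i j hij).elim (hred true _ _ c1) (hred false _ _ c2)⟩
    · refine core (C true) (C false) r Y hY2 R _ ?_ Z (fun p => φ (Sum.inl p))
        (fun p => ⟨p, rfl⟩) (fun y i j hij => hred true _ _ c1 (hSa y i j hij))
        (fun y y' i j h => hblue false _ _ c2 (hSb y y' i j h))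
      intro a b h
      by_cases e : R.Adj a b
      · exact Or.inl e
      · exact Or.inr ⟨h, e⟩
    · refine (core (C true) (C false) r Y hY2 _ R ?_ Z (fun p => φ (Sum.inl p))
        (fun p => ⟨p, rfl⟩) (fun y i j hij => hblue true _ _ c1 (hSa y i j hij))
        (fun y y' i j h => hred false _ _ c2 (hSb y y' i j h))).symm
      intro a b h
      by_cases e : R.Adj a b
      · exact Or.inr e
      · exact Or.inl ⟨h, e⟩
    · exact Or.inr ⟨fun i => Sum.inl (φ (Sum.inr i)), fun i j hij =>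
        (hmix i j hij).elim (hblue true _ _ c1) (hblue false _ _ c2)⟩
  · intro f hf i w hw
    exact Fb_noPend (C true) (C false) r hCb f
      (fun i j hij => (hf i j hij).1.resolve_left (hf i j hij).2) i w (hw.1.resolve_left hw.2)

end Pool.Agent.Work.MP_683e5e_co
end

-- merged part: Pool.Agent.Work.MP_683e5e_co.Main
section
set_option autoImplicit false

namespace Pool.Agent.Work.MP_683e5e_co

open Classical SimpleGraph

theorem Sub.trans {V W X : Type} {G : SimpleGraph V} {F : SimpleGraph W} {E : SimpleGraph X}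
    (h1 : Sub G F) (h2 : Sub F E) : Sub G E := by
  obtain ⟨f, hf, hf'⟩ := h1
  obtain ⟨g, hg, hg'⟩ := h2
  exact ⟨g ∘ f, hg.comp hf, fun u v h => hg' _ _ (hf' u v h)⟩

theorem Arr.mono {V U W W' : Type} {F : SimpleGraph W} {F' : SimpleGraph W'} {G : SimpleGraph V}
    {H : SimpleGraph U} (h : Arr F G H) (hs : Sub F F') : Arr F' G H := by
  obtain ⟨f, hf, hf'⟩ := hs
  intro R _
  rcases h (F ⊓ R.comap f) inf_le_left with h | h
  · exact Or.inl (h.trans ⟨f, hf, fun u v e => e.2⟩)
  · exact Or.inr (h.trans ⟨f, hf, fun u v e => ⟨hf' u v e.1, fun e' => e.2 ⟨e.1, e'⟩⟩⟩)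

theorem ArrK.map {W W' : Type} {F : SimpleGraph W} {F' : SimpleGraph W'} {t : ℕ} (h : ArrK F t)
    (f : W → W') (hf : ∀ u v, F.Adj u v → F'.Adj (f u) (f v)) : ArrK F' t := by
  intro R _
  rcases h (F ⊓ R.comap f) inf_le_left with h | h
  · exact Or.inl (h.map f (fun u v e => e.2))
  · exact Or.inr (h.map f (fun u v e => ⟨hf u v e.1, fun e' => e.2 ⟨e.1, e'⟩⟩))

theorem Arr.symm {V U W : Type} {F : SimpleGraph W} {G : SimpleGraph V} {H : SimpleGraph U}
    (h : Arr F G H) : Arr F H G := by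
  intro R hR
  rcases h (F \ R) (fun _ _ e => e.1) with h | h
  · exact Or.inr h
  · refine Or.inl (h.trans ⟨id, Function.injective_id, fun u v e => ?_⟩)
    by_contra hc
    exact e.2 ⟨e.1, hc⟩

/-- Ramsey equivalence with the pair of cliques, over all finite vertex types. -/
def Equi {V U : Type} (G : SimpleGraph V) (H : SimpleGraph U) (t : ℕ) : Prop :=
  ∀ (W : Type) [Finite W] (F : SimpleGraph W), Arr F G H ↔ ArrK F t

theorem Equi.symm {V U : Type} {G : SimpleGraph V} {H : SimpleGraph U} {t : ℕ} (h : Equi G H t) :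
    Equi H G t := fun W _ F => ⟨fun e => (h W F).mp e.symm, fun e => ((h W F).mpr e).symm⟩

theorem equi_of_fin {V U : Type} {G : SimpleGraph V} {H : SimpleGraph U} {t : ℕ}
    (h : ∀ (k : ℕ) (F : SimpleGraph (Fin k)), Arr F G H ↔ ArrK F t) : Equi G H t := by
  intro W _ F
  have := Fintype.ofFinite W
  let e := (Fintype.equivFin W).symm
  have s1 : Sub (F.comap e) F := ⟨e, e.injective, fun _ _ a => a⟩
  have s2 : Sub F (F.comap e) := ⟨e.symm, e.symm.injective, fun _ _ a => by simpa using a⟩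
  constructor
  · intro a
    exact ((h _ (F.comap e)).mp (a.mono s2)).map e (fun _ _ a => a)
  · intro a
    exact ((h _ (F.comap e)).mpr (a.map e.symm (fun _ _ a => by simpa using a))).mono s1

theorem has_edge {V U : Type} {G : SimpleGraph V} {H : SimpleGraph U} {t : ℕ} (ht : 2 ≤ t)
    (hG : G.Connected) (h : Equi G H t) : ∃ u v, G.Adj u v := by
  by_contra hc
  push Not at hc
  have hb : G = ⊥ := by
    ext u v
    simpa using hc u v
  have hs : Subsingleton V := by
    have := hG.preconnected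
    rw [hb] at this
    exact preconnected_bot_iff_subsingleton.mp this
  have h1 : Arr (⊥ : SimpleGraph Unit) G H := fun R _ =>
    Or.inl ⟨fun _ => (), fun a b _ => Subsingleton.elim a b, fun u v e => absurd e (hc u v)⟩
  rcases (h Unit ⊥).mp h1 ⊥ bot_le with e | e
  · exact not_hasK_bot ht e
  · exact not_hasK_bot ht (e.mono (fun _ _ a => a.1))

theorem sub_of_arrK {V U W : Type} [Finite W] {G : SimpleGraph V} {H : SimpleGraph U} {t : ℕ}
    (ht : 2 ≤ t) (hG : G.Connected) (h : Equi G H t) {F : SimpleGraph W} (hF : ArrK F t) :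
    Sub H F := by
  obtain ⟨u, v, huv⟩ := has_edge ht hG h
  rcases (h W F).mpr hF ⊥ bot_le with ⟨f, -, hf⟩ | e
  · exact absurd (hf u v huv) (by simp)
  · exact e.trans ⟨id, Function.injective_id, fun _ _ a => a.1⟩

theorem hasK_left {V U : Type} [Finite V] [Finite U] {G : SimpleGraph V} {H : SimpleGraph U}
    {t : ℕ} (ht : 2 ≤ t) (hG : G.Connected) (h : Equi G H t) : HasK G t := by
  by_contra hK
  have := hG.nonempty
  have := Fintype.ofFinite U
  have hH : ArrK H t := by
    by_contra hH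
    obtain ⟨W, _, F, h1, h2⟩ := separate_small G H ht hK hH
    exact h2 ((h W F).mp h1)
  have h3 : 3 ≤ t := by
    by_contra h3
    have : t = 2 := by omega
    subst this
    obtain ⟨u, v, huv⟩ := has_edge ht hG h
    refine hK ⟨![u, v], fun i j hij => ?_⟩
    fin_cases i <;> fin_cases j <;> simp_all [G.adj_comm]
  by_cases hcomp : ∀ u v : U, u ≠ v → H.Adj u v
  · obtain ⟨W, _, F, hF1, hF2⟩ := folkman t (by omega)
    have hs := sub_of_arrK ht hG h hF2
    have hk : HasK H (Fintype.card U) :=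
      ⟨(Fintype.equivFin U).symm, fun i j hij =>
        hcomp _ _ (fun e => hij ((Fintype.equivFin U).symm.injective e))⟩
    refine not_arrK_small H h3 ?_ hH
    by_contra hlt
    exact hF1 ((hk.sub hs).le (by omega))
  · push Not at hcomp
    obtain ⟨u, v, huv, hn⟩ := hcomp
    let f : U → {w : U // w ≠ u} := fun w => if e : w = u then ⟨v, huv.symm⟩ else ⟨w, e⟩
    have h1 : ArrK (⊤ : SimpleGraph {w : U // w ≠ u}) t := by
      refine hH.map f (fun a b e => ?_)
      rw [top_adj]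
      intro e'
      by_cases ha : a = u <;> by_cases hb : b = u
      · exact e.ne (ha.trans hb.symm)
      · simp only [f, dif_pos ha, dif_neg hb] at e'
        have : v = b := congrArg Subtype.val e'
        exact hn (ha ▸ this ▸ e)
      · simp only [f, dif_neg ha, dif_pos hb] at e'
        have : a = v := congrArg Subtype.val e'
        exact hn (hb ▸ this ▸ e).symm
      · simp only [f, dif_neg ha, dif_neg hb] at e'
        exact e.ne (congrArg Subtype.val e')
    obtain ⟨g, hg, -⟩ := sub_of_arrK ht hG h h1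
    have c1 := Fintype.card_le_of_injective g hg
    have c2 : Fintype.card {w : U // w ≠ u} < Fintype.card U :=
      Fintype.card_subtype_lt (x := u) (by simp)
    omega

theorem iso_right {V U : Type} [Finite V] [Finite U] {G : SimpleGraph V} {H : SimpleGraph U}
    {t : ℕ} (ht : 2 ≤ t) (hG : G.Connected) (hH : H.Connected) (h : Equi G H t) :
    Nonempty (H ≃g (⊤ : SimpleGraph (Fin t))) := by
  have k1 := hasK_left ht hG h
  obtain ⟨f, hf⟩ := hasK_left ht hH h.symm
  obtain ⟨W, _, F, R, hF, hR, h1, h2⟩ := exists_pendant t ht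
  rcases (h W F).mpr hF R hR with e | ⟨g, hg, hg'⟩
  · exact absurd (k1.sub e) h1
  have hsurj : Function.Surjective f := by
    intro w
    by_contra hw
    obtain ⟨p⟩ := hH.preconnected (f ⟨0, by omega⟩) w
    obtain ⟨d, -, ⟨i, hi⟩, hd⟩ := p.exists_boundary_dart (Set.range f) ⟨_, rfl⟩ hw
    obtain ⟨j, hj⟩ := h2 (g ∘ f) (fun i j hij => hg' _ _ (hf i j hij)) i (g d.snd)
      (hg' _ _ (hi ▸ d.adj))
    exact hd ⟨j, hg hj⟩
  refine ⟨(show (⊤ : SimpleGraph (Fin t)) ≃g H from
    ⟨Equiv.ofBijective f ⟨clique_inj hf, hsurj⟩, fun {i j} => ?_⟩).symm⟩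
  simp only [Equiv.ofBijective_apply, top_adj]
  exact ⟨fun e e' => e.ne (e' ▸ rfl), hf i j⟩

theorem sub_iff_hom {V W : Type} (G : SimpleGraph V) (F : SimpleGraph W) :
    (∃ f : G →g F, Function.Injective f) ↔ Sub G F :=
  ⟨fun ⟨f, hf⟩ => ⟨f, hf, fun _ _ e => f.map_adj e⟩,
    fun ⟨f, hf, h⟩ => ⟨⟨f, fun e => h _ _ e⟩, hf⟩⟩

end Pool.Agent.Work.MP_683e5e_co
end
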